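import Pool.Agent.Helper33.NCP.Hyperbolic

/-!
Centralizers in groups acting on trees with abelian edge stabilizers, for groups acting as the
fundamental group of a closed space without conjugate points.
-/

namespace Pool.Agent.Results.MP_8db88d_gt.AbelianSplittings

open Helper33.NCP

/-- Let `Γ` act freely, properly discontinuously and cocompactly by isometries on a proper
geodesic space `M` in which all local geodesic lines are globally minimizing (as the fundamental
group of a closed manifold without conjugate points acts on the universal cover). Suppose that `Γ`
acts on a tree without inversions and that the stabilizers of the edges are finitely generated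
abelian groups. If `γ ∈ Γ` is such that for every vertex `v` fixed by `γ` the centralizer of `γ` in
the stabilizer of `v` is straight or virtually finitely generated abelian, then the centralizer of
`γ` is straight in `Γ`. -/
theorem result {Γ M V : Type*} [Group Γ] [MetricSpace M] [MulAction Γ M] [MulAction Γ V]
    (hM : IsNoConjCover Γ M) {T : SimpleGraph V} (hT : T.IsTree)
    (hadj : ∀ (g : Γ) (u v : V), T.Adj u v → T.Adj (g • u) (g • v))
    (hinv : ∀ (g : Γ) (u v : V), T.Adj u v → ¬ (g • u = v ∧ g • v = u))
    (hE : ∀ u v : V, T.Adj u v → (edgeStab Γ u v).FG ∧
      ∀ a ∈ edgeStab Γ u v, ∀ b ∈ edgeStab Γ u v, a * b = b * a)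
    (γ : Γ) (hV : ∀ (v : V) (hv : γ • v = v), TameCent (⟨γ, hv⟩ : MulAction.stabilizer Γ v)) :
    Straight (Subgroup.centralizer {γ}) :=
  tree_straight hM hT hadj hinv hE γ hV

end Pool.Agent.Results.MP_8db88d_gt.AbelianSplittings
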