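import Pool.Agent.Helper33.NCP.Main

/-!
Centralizers in subdirect products, for groups acting as the fundamental group of a closed space
without conjugate points.
-/

namespace Pool.Agent.Results.MP_8db88d_gt.SubdirectProducts

open Helper33.NCP

/-- Let `Γ` act freely, properly discontinuously and cocompactly by isometries on a proper
geodesic space `M` in which all local geodesic lines are globally minimizing (as the fundamental
group of a closed manifold without conjugate points acts on the universal cover). Suppose that `Γ`
embeds in a product `G 1 × ... × G n` in such a way that every nontrivial normal subgroup `N` of
each image `img φ i` of `Γ` contains an element `a` with `[Z(a) : Z(a) ∩ N]` finite. Then for some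
set `J` of factors the projection of `Γ` to the product of its images in the factors `j ∈ J` is
injective with image of finite index, and the centralizer of an element `γ` is straight in `Γ` as
soon as the centralizers of its nontrivial coordinates in the images of `Γ` are straight or
virtually finitely generated abelian. -/
theorem result {Γ M : Type*} [Group Γ] [MetricSpace M] [MulAction Γ M]
    (hM : IsNoConjCover Γ M) {n : ℕ} {G : Fin n → Type*} [∀ i, Group (G i)]
    (φ : Γ →* ∀ i, G i) (hφ : Function.Injective φ) (hG : ∀ i, NormalRich (img φ i)) :
    (∃ J : Finset (Fin n), Function.Injective (proj φ J) ∧ (proj φ J).range.FiniteIndex) ∧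
      ∀ γ : Γ, (∀ i, coord φ i γ ≠ 1 → TameCent (coord φ i γ)) →
        Straight (Subgroup.centralizer {γ}) :=
  subdirect_main hM hφ hG

end Pool.Agent.Results.MP_8db88d_gt.SubdirectProducts
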